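import Pool.Agent.Helper73.LOMin.Defs

/-!
Module BG of MP_70d4a1_al: bounded generation by roots of the translation by one in the group of
the order automorphisms of `ℚ` which commute with this translation.
-/

namespace PoolLOMin

/-! ### Constructors -/

/-- `x ↦ c * x + d` -/
private def aff (c d : ℚ) (hc : 0 < c) : AutQ :=
  StrictMono.orderIsoOfRightInverse (fun x => c * x + d)
    (fun x y h => by
      have := mul_lt_mul_of_pos_left h hc
      show c * x + d < c * y + d
      linarith)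
    (fun y => (y - d) / c) (fun y => by
      show c * ((y - d) / c) + d = y
      field_simp
      ring)

private lemma aff_apply (c d : ℚ) (hc : 0 < c) (x : ℚ) : aff c d hc x = c * x + d := rfl

/-- `f` to the left of `a`, `g` to the right -/
private def glue (f g : AutQ) (a : ℚ) (h : f a = g a) : AutQ :=
  StrictMono.orderIsoOfRightInverse (fun x => if x < a then f x else g x)
    (fun x y hxy => by
      show (if x < a then f x else g x) < (if y < a then f y else g y)
      by_cases hx : x < a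
      · by_cases hy : y < a
        · rw [if_pos hx, if_pos hy]; exact f.strictMono hxy
        · rw [if_pos hx, if_neg hy]
          calc f x < f a := f.strictMono hx
            _ = g a := h
            _ ≤ g y := g.monotone (not_lt.1 hy)
      · have hy : ¬ y < a := fun hy => hx (hxy.trans hy)
        rw [if_neg hx, if_neg hy]; exact g.strictMono hxy)
    (fun y => if y < f a then f.symm y else g.symm y)
    (fun y => by
      show (if (if y < f a then f.symm y else g.symm y) < a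
        then f (if y < f a then f.symm y else g.symm y)
        else g (if y < f a then f.symm y else g.symm y)) = y
      by_cases hy : y < f a
      · have : f.symm y < a := by
          rw [f.symm_apply_lt]; exact hy
        rw [if_pos hy, if_pos this, f.apply_symm_apply]
      · have : ¬ g.symm y < a := by
          rw [g.symm_apply_lt, ← h]; exact hy
        rw [if_neg hy, if_neg this, g.apply_symm_apply])

private lemma glue_left (f g : AutQ) (a : ℚ) (h : f a = g a) {x : ℚ} (hx : x < a) :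
    glue f g a h x = f x := if_pos hx

private lemma glue_right (f g : AutQ) (a : ℚ) (h : f a = g a) {x : ℚ} (hx : a ≤ x) :
    glue f g a h x = g x := if_neg (not_lt.2 hx)

private lemma val_mem (g : AutQ) (h0 : g 0 = 0) (h1 : g 1 = 1) (x : ℚ) :
    0 ≤ g (Int.fract x) ∧ g (Int.fract x) < 1 := by
  constructor
  · rw [← h0]; exact g.monotone (Int.fract_nonneg x)
  · calc g (Int.fract x) < g 1 := g.strictMono (Int.fract_lt_one x)
      _ = 1 := h1

private lemma floor_add {n : ℤ} {t : ℚ} (h0 : 0 ≤ t) (h1 : t < 1) : ⌊(n : ℚ) + t⌋ = n := by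
  rw [Int.floor_eq_iff]
  constructor <;> linarith

private lemma fract_add {n : ℤ} {t : ℚ} (h0 : 0 ≤ t) (h1 : t < 1) :
    Int.fract ((n : ℚ) + t) = t := by
  rw [Int.fract, floor_add h0 h1]
  ring

/-- periodic extension -/
private def pext (g : AutQ) (h0 : g 0 = 0) (h1 : g 1 = 1) : AutQ :=
  StrictMono.orderIsoOfRightInverse (fun x => (⌊x⌋ : ℚ) + g (Int.fract x))
    (fun x y hxy => by
      show (⌊x⌋ : ℚ) + g (Int.fract x) < (⌊y⌋ : ℚ) + g (Int.fract y)
      have hx := val_mem g h0 h1 x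
      have hy := val_mem g h0 h1 y
      rcases (Int.floor_mono hxy.le).lt_or_eq with h | h
      · have : (⌊x⌋ : ℚ) + 1 ≤ ⌊y⌋ := by exact_mod_cast h
        linarith
      · rw [h]
        have : Int.fract x < Int.fract y := by
          rw [Int.fract, Int.fract, h]; linarith
        have := g.strictMono this
        linarith)
    (fun y => (⌊y⌋ : ℚ) + g.symm (Int.fract y))
    (fun y => by
      have h0' : g.symm 0 = 0 := by rw [g.symm_apply_eq, h0]
      have h1' : g.symm 1 = 1 := by rw [g.symm_apply_eq, h1]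
      have hy := val_mem g.symm h0' h1' y
      show (⌊(⌊y⌋ : ℚ) + g.symm (Int.fract y)⌋ : ℚ) +
        g (Int.fract ((⌊y⌋ : ℚ) + g.symm (Int.fract y))) = y
      rw [floor_add hy.1 hy.2, fract_add hy.1 hy.2, g.apply_symm_apply]
      exact Int.floor_add_fract y)

private lemma pext_apply (g : AutQ) (h0 : g 0 = 0) (h1 : g 1 = 1) (x : ℚ) :
    pext g h0 h1 x = ⌊x⌋ + g (Int.fract x) := rfl

private lemma pext_per (g : AutQ) (h0 : g 0 = 0) (h1 : g 1 = 1) : Per (pext g h0 h1) := by
  intro x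
  rw [pext_apply, pext_apply, Int.floor_add_one, Int.fract_add_one]
  push_cast
  ring

private lemma pext_unit (g : AutQ) (h0 : g 0 = 0) (h1 : g 1 = 1) {x : ℚ} (hx0 : 0 ≤ x)
    (hx1 : x < 1) : pext g h0 h1 x = g x := by
  have e1 : ⌊x⌋ = 0 := Int.floor_eq_zero_iff.2 ⟨hx0, hx1⟩
  have e2 : Int.fract x = x := Int.fract_eq_self.2 ⟨hx0, hx1⟩
  rw [pext_apply, e1, e2]; simp

private lemma exists_bump (a p q : ℚ) (ha : 0 ≤ a) (hp : a < p) (hp1 : p < 1) (hq : a < q)
    (hq1 : q < 1) : ∃ v : AutQ, Per v ∧ (∀ x, 0 ≤ x → x ≤ a → v x = x) ∧ v p = q := by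
  have e1 : 0 < (q - a) / (p - a) := div_pos (by linarith) (by linarith)
  have e2 : 0 < (1 - q) / (1 - p) := div_pos (by linarith) (by linarith)
  have hpa : p - a ≠ 0 := by linarith
  have hp1' : 1 - p ≠ 0 := by linarith
  let L1 : AutQ := aff ((q - a) / (p - a)) (a - (q - a) / (p - a) * a) e1
  let L2 : AutQ := aff ((1 - q) / (1 - p)) (1 - (1 - q) / (1 - p)) e2
  have hL1a : L1 a = a := by
    show (q - a) / (p - a) * a + (a - (q - a) / (p - a) * a) = a
    ring
  have hL1p : L1 p = q := by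
    show (q - a) / (p - a) * p + (a - (q - a) / (p - a) * a) = q
    have : (q - a) / (p - a) * p + (a - (q - a) / (p - a) * a) =
      (q - a) / (p - a) * (p - a) + a := by ring
    rw [this, div_mul_cancel₀ _ hpa]; ring
  have hL2p : L2 p = q := by
    show (1 - q) / (1 - p) * p + (1 - (1 - q) / (1 - p)) = q
    have : (1 - q) / (1 - p) * p + (1 - (1 - q) / (1 - p)) =
      1 - (1 - q) / (1 - p) * (1 - p) := by ring
    rw [this, div_mul_cancel₀ _ hp1']; ring
  have hL21 : L2 1 = 1 := by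
    show (1 - q) / (1 - p) * 1 + (1 - (1 - q) / (1 - p)) = 1
    ring
  let G1 : AutQ := glue 1 L1 a hL1a.symm
  have hG1p : G1 p = q := by
    rw [show G1 p = L1 p from glue_right _ _ _ _ hp.le, hL1p]
  let G2 : AutQ := glue G1 L2 p (by rw [hG1p, hL2p])
  have h0 : G2 0 = 0 := by
    rw [show G2 0 = G1 0 from glue_left _ _ _ _ (by linarith)]
    rcases ha.lt_or_eq with h | h
    · exact glue_left _ _ _ _ h
    · rw [show G1 0 = L1 0 from glue_right _ _ _ _ h.symm.le, h, hL1a]
  have h1 : G2 1 = 1 := by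
    rw [show G2 1 = L2 1 from glue_right _ _ _ _ hp1.le, hL21]
  refine ⟨pext G2 h0 h1, pext_per _ _ _, ?_, ?_⟩
  · intro x hx0 hxa
    rw [pext_unit _ _ _ hx0 (by linarith), show G2 x = G1 x from glue_left _ _ _ _ (by linarith)]
    rcases hxa.lt_or_eq with h | h
    · exact glue_left _ _ _ _ h
    · rw [h, show G1 a = L1 a from glue_right _ _ _ _ le_rfl, hL1a]
  · rw [pext_unit _ _ _ (by linarith) hp1, show G2 p = L2 p from glue_right _ _ _ _ le_rfl, hL2p]

/-! ### Periodic maps -/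

private lemma per_mul {f g : AutQ} (hf : Per f) (hg : Per g) : Per (f * g) := by
  intro x
  rw [mul_apply', mul_apply', hg, hf]

private lemma inv_apply_self' (f : AutQ) (x : ℚ) : f⁻¹ (f x) = x := f.symm_apply_apply x

private lemma apply_inv_self' (f : AutQ) (x : ℚ) : f (f⁻¹ x) = x := f.apply_symm_apply x

private lemma per_inv {f : AutQ} (hf : Per f) : Per f⁻¹ := by
  intro x
  have h := hf (f⁻¹ x)
  rw [apply_inv_self'] at h
  rw [← h, inv_apply_self']

private lemma per_int {f : AutQ} (hf : Per f) (x : ℚ) (n : ℤ) : f (x + n) = f x + n := by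
  induction n using Int.induction_on with
  | zero => simp
  | succ i ih =>
    push_cast at ih ⊢
    rw [← add_assoc, hf, ih]; ring
  | pred i ih =>
    push_cast at ih ⊢
    have h := hf (x + (-(i : ℚ) - 1))
    rw [show x + (-(i : ℚ) - 1) + 1 = x + -(i : ℚ) by ring, ih] at h
    linarith

private lemma per_floor {f : AutQ} (hf : Per f) (x : ℚ) : f x = ⌊x⌋ + f (Int.fract x) := by
  have := per_int hf (Int.fract x) ⌊x⌋
  rw [Int.fract_add_floor] at this
  rw [this]; ring

private lemma root_per {f : AutQ} (hf : Root f) : Per f := by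
  intro x
  rw [← hf x, ← hf (f x)]

private lemma root_conj {f g : AutQ} (hf : Root f) (hg : Per g) : Root (g * f * g⁻¹) := by
  intro x
  simp only [mul_apply', inv_apply_self']
  rw [hf, hg, apply_inv_self']

/-- `h` is a product of at most `n` roots or inverses of roots -/
private def Gen (n : ℕ) (h : AutQ) : Prop :=
  ∃ l : List AutQ, l.length ≤ n ∧ (∀ x ∈ l, Per x ∧ (Root x ∨ Root x⁻¹)) ∧ l.prod = h

private lemma Gen.mul {m n : ℕ} {g h : AutQ} (hg : Gen m g) (hh : Gen n h) :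
    Gen (m + n) (g * h) := by
  obtain ⟨l1, a1, b1, rfl⟩ := hg
  obtain ⟨l2, a2, b2, rfl⟩ := hh
  refine ⟨l1 ++ l2, by rw [List.length_append]; omega, ?_, List.prod_append⟩
  intro x hx
  rcases List.mem_append.1 hx with h | h
  · exact b1 x h
  · exact b2 x h

private lemma gen_root {f : AutQ} (hf : Root f) : Gen 1 f :=
  ⟨[f], by simp, by
    intro x hx
    rw [List.mem_singleton] at hx
    subst hx
    exact ⟨root_per hf, Or.inl hf⟩, by simp⟩

private lemma gen_root_inv {f : AutQ} (hf : Root f) : Gen 1 f⁻¹ :=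
  ⟨[f⁻¹], by simp, by
    intro x hx
    rw [List.mem_singleton] at hx
    subst hx
    exact ⟨per_inv (root_per hf), Or.inr (by rwa [inv_inv])⟩, by simp⟩

private lemma Gen.conj {n : ℕ} {h : AutQ} (hh : Gen n h) {g : AutQ} (hg : Per g) :
    Gen n (g * h * g⁻¹) := by
  obtain ⟨l, a, b, rfl⟩ := hh
  refine ⟨l.map fun x => g * x * g⁻¹, by rwa [List.length_map], ?_, ?_⟩
  · intro x hx
    obtain ⟨y, hy, rfl⟩ := List.mem_map.1 hx
    obtain ⟨h1, h2⟩ := b y hy
    refine ⟨per_mul (per_mul hg h1) (per_inv hg), ?_⟩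
    rcases h2 with h2 | h2
    · exact Or.inl (root_conj h2 hg)
    · right
      rw [show (g * y * g⁻¹)⁻¹ = g * y⁻¹ * g⁻¹ by group]
      exact root_conj h2 hg
  · clear a b
    induction l with
    | nil => simp
    | cons x l ih => rw [List.map_cons, List.prod_cons, List.prod_cons, ih]; group

/-- supported on `[1/2, 1]` modulo one -/
private def InK (g : AutQ) : Prop := Per g ∧ ∀ x, 0 ≤ x → x ≤ 1 / 2 → g x = x

private def rr : AutQ := shift (1 / 2)

private lemma rr_apply (x : ℚ) : rr x = x + 1 / 2 := rfl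

private lemma rr_root : Root rr := by
  intro x
  rw [rr_apply, rr_apply]; ring

private lemma rr_inv_apply (x : ℚ) : rr⁻¹ x = x - 1 / 2 := by
  have h := inv_apply_self' rr (x - 1 / 2)
  rwa [rr_apply, sub_add_cancel] at h

/-- two periodic maps with disjoint supports commute -/
private lemma comm_aux {β c : AutQ} (hβ : InK β) (hc : Per c)
    (hc' : ∀ x, 1 / 2 ≤ x → x ≤ 1 → c x = x) : c * β = β * c := by
  ext x
  have hβc := per_mul hβ.1 hc
  have hcβ := per_mul hc hβ.1
  rw [per_floor hcβ, per_floor hβc]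
  congr 1
  have h0 := Int.fract_nonneg x
  have h1 := Int.fract_lt_one x
  set t := Int.fract x
  rw [mul_apply', mul_apply']
  by_cases ht : t ≤ 1 / 2
  · have hb : β t = t := hβ.2 t h0 ht
    rw [hb]
    have hc1 : c (1 / 2) = 1 / 2 := hc' _ le_rfl (by norm_num)
    have hc0 : c 0 = 0 := by
      have := hc 0
      rw [zero_add, hc' 1 (by norm_num) le_rfl] at this
      linarith
    have h2 : c t ≤ 1 / 2 := by rw [← hc1]; exact c.monotone ht
    have h3 : 0 ≤ c t := by rw [← hc0]; exact c.monotone h0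
    rw [hβ.2 _ h3 h2]
  · rw [not_le] at ht
    rw [hc' t ht.le h1.le]
    have hb1 : β (1 / 2) = 1 / 2 := hβ.2 _ (by norm_num) le_rfl
    have hb0 : β 1 = 1 := by
      have := hβ.1 0
      rw [zero_add, hβ.2 0 le_rfl (by norm_num)] at this
      linarith
    have h2 : β t ≤ 1 := by rw [← hb0]; exact β.monotone h1.le
    have h3 : 1 / 2 ≤ β t := by rw [← hb1]; exact β.monotone ht.le
    rw [hc' _ h3 h2]

/-- a commutator of elements of `K` is a product of four roots -/
private lemma four_roots {β γ : AutQ} (hβ : InK β) (hγ : InK γ) :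
    Gen 4 (β * γ * β⁻¹ * γ⁻¹) := by
  have hr : Per rr := root_per rr_root
  have hc : Per (rr * β * rr⁻¹) := per_mul (per_mul hr hβ.1) (per_inv hr)
  have hc' : ∀ x, 1 / 2 ≤ x → x ≤ 1 → (rr * β * rr⁻¹) x = x := by
    intro x h1 h2
    rw [mul_apply', mul_apply', rr_inv_apply, hβ.2 _ (by linarith) (by linarith), rr_apply]
    ring
  have c1 := comm_aux hβ hc hc'
  have c2 := comm_aux hγ hc hc'
  have key : β * γ * β⁻¹ * γ⁻¹ = ((β * rr * β⁻¹) * rr⁻¹) *
      (((γ * β⁻¹) * rr * (γ * β⁻¹)⁻¹) * (γ * rr⁻¹ * γ⁻¹)) := by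
    set c := rr * β * rr⁻¹ with hcdef
    have e1 : (β * rr * β⁻¹) * rr⁻¹ = β * c⁻¹ := by rw [hcdef]; group
    have e2 : ((γ * β⁻¹) * rr * (γ * β⁻¹)⁻¹) * (γ * rr⁻¹ * γ⁻¹) = γ * β⁻¹ * c * γ⁻¹ := by
      rw [hcdef]; group
    rw [e1, e2]
    have e3 : γ * β⁻¹ * c = c * (γ * β⁻¹) := by
      have e4 : β⁻¹ * c = c * β⁻¹ := by
        rw [inv_mul_eq_iff_eq_mul, ← mul_assoc, ← c1, mul_assoc, mul_inv_cancel, mul_one]
      rw [mul_assoc, e4, ← mul_assoc, ← c2, mul_assoc]
    rw [e3]
    group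
  rw [key]
  refine Gen.mul (m := 2) (n := 2) (Gen.mul (m := 1) (n := 1) ?_ ?_)
    (Gen.mul (m := 1) (n := 1) ?_ ?_)
  · exact gen_root (root_conj rr_root hβ.1)
  · exact gen_root_inv rr_root
  · exact gen_root (root_conj rr_root (per_mul hγ.1 (per_inv hβ.1)))
  · rw [show γ * rr⁻¹ * γ⁻¹ = (γ * rr * γ⁻¹)⁻¹ by group]
    exact gen_root_inv (root_conj rr_root hγ.1)

/-- the swindle -/
private lemma swindle (g : AutQ) (h0 : ∀ x ≤ 0, g x = x) (h1 : ∀ x, 1 ≤ x → g x = x) :
    ∃ G : AutQ, g = G * shift 1 * G⁻¹ * (shift 1)⁻¹ := by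
  have g0 : g 0 = 0 := h0 0 le_rfl
  have g1 : g 1 = 1 := h1 1 le_rfl
  have gg : (1 : AutQ) 0 = pext g g0 g1 0 := by
    rw [pext_unit _ _ _ le_rfl (by norm_num), g0]; rfl
  refine ⟨glue 1 (pext g g0 g1) 0 gg, ?_⟩
  set G := glue 1 (pext g g0 g1) 0 gg with hG
  have Gneg : ∀ x < 0, G x = x := fun x hx => glue_left _ _ _ _ hx
  have Gpos : ∀ x, 0 ≤ x → G x = ⌊x⌋ + g (Int.fract x) := fun x hx => glue_right _ _ _ _ hx
  have key : g * (shift 1 * G) = G * shift 1 := by
    ext x
    rw [mul_apply', mul_apply', mul_apply', shift_apply, shift_apply]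
    rcases lt_or_ge x 0 with hx | hx
    · rw [Gneg x hx]
      rcases lt_or_ge (x + 1) 0 with hx1 | hx1
      · rw [Gneg _ hx1, h0 _ hx1.le]
      · rw [Gpos _ hx1]
        have e1 : ⌊x + 1⌋ = 0 := Int.floor_eq_zero_iff.2 ⟨hx1, by linarith⟩
        have e2 : Int.fract (x + 1) = x + 1 := Int.fract_eq_self.2 ⟨hx1, by linarith⟩
        rw [e1, e2]; simp
    · rw [Gpos x hx, Gpos (x + 1) (by linarith), Int.floor_add_one, Int.fract_add_one]
      have hv := val_mem g g0 g1 x
      have hf : (0 : ℚ) ≤ ⌊x⌋ := by exact_mod_cast Int.floor_nonneg.2 hx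
      rw [h1 _ (by linarith)]
      push_cast
      ring
  rw [← key]
  group

/-! ### Planting automorphisms of `ℚ` in `(1/2, 1)` -/

private abbrev J : Set ℚ := Set.Ioo (1 / 2 : ℚ) 1

open Classical in
private noncomputable def ext0 (β : J ≃o J) (x : ℚ) : ℚ :=
  if h : Int.fract x ∈ J then ⌊x⌋ + ((β ⟨Int.fract x, h⟩ : J) : ℚ) else x

private lemma ext0_pos (β : J ≃o J) {x : ℚ} (h : Int.fract x ∈ J) :
    ext0 β x = ⌊x⌋ + ((β ⟨Int.fract x, h⟩ : J) : ℚ) := dif_pos h

private lemma ext0_neg (β : J ≃o J) {x : ℚ} (h : Int.fract x ∉ J) : ext0 β x = x := dif_neg h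

private lemma J_bd (z : J) : (0 : ℚ) ≤ z ∧ (z : ℚ) < 1 := ⟨by have := z.2.1; linarith, z.2.2⟩

private lemma ext0_floor (β : J ≃o J) (x : ℚ) : ⌊ext0 β x⌋ = ⌊x⌋ := by
  by_cases h : Int.fract x ∈ J
  · rw [ext0_pos β h]
    exact floor_add (J_bd _).1 (J_bd _).2
  · rw [ext0_neg β h]

private lemma ext0_fract (β : J ≃o J) {x : ℚ} (h : Int.fract x ∈ J) :
    Int.fract (ext0 β x) = ((β ⟨Int.fract x, h⟩ : J) : ℚ) := by
  rw [ext0_pos β h]
  exact fract_add (J_bd _).1 (J_bd _).2

private lemma ext0_ext0 (β γ : J ≃o J) (x : ℚ) : ext0 β (ext0 γ x) = ext0 (γ.trans β) x := by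
  by_cases h : Int.fract x ∈ J
  · have e := ext0_fract γ h
    have h' : Int.fract (ext0 γ x) ∈ J := by rw [e]; exact (γ ⟨_, h⟩).2
    rw [ext0_pos β h', ext0_pos (γ.trans β) h, ext0_floor]
    have e2 : (⟨Int.fract (ext0 γ x), h'⟩ : J) = γ ⟨Int.fract x, h⟩ := Subtype.ext e
    rw [e2]
    rfl
  · rw [ext0_neg γ h, ext0_neg β h, ext0_neg _ h]

private lemma ext0_refl (x : ℚ) : ext0 (OrderIso.refl J) x = x := by
  by_cases h : Int.fract x ∈ J
  · rw [ext0_pos _ h]
    show (⌊x⌋ : ℚ) + Int.fract x = x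
    exact Int.floor_add_fract x
  · exact ext0_neg _ h

private lemma ext0_strictMono (β : J ≃o J) : StrictMono (ext0 β) := by
  intro x y hxy
  rcases (Int.floor_mono hxy.le).lt_or_eq with h | h
  · have h1 : (⌊ext0 β x⌋ : ℚ) + 1 ≤ ⌊ext0 β y⌋ := by
      rw [ext0_floor, ext0_floor]; exact_mod_cast h
    have h2 := Int.lt_floor_add_one (ext0 β x)
    have h3 := Int.floor_le (ext0 β y)
    linarith
  · have hf : Int.fract x < Int.fract y := by
      rw [Int.fract, Int.fract, h]; linarith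
    by_cases hx : Int.fract x ∈ J
    · have hy : Int.fract y ∈ J := ⟨hx.1.trans hf, Int.fract_lt_one y⟩
      rw [ext0_pos β hx, ext0_pos β hy, h]
      have : β ⟨_, hx⟩ < β ⟨_, hy⟩ := β.strictMono hf
      have : ((β ⟨_, hx⟩ : J) : ℚ) < β ⟨_, hy⟩ := this
      linarith
    · by_cases hy : Int.fract y ∈ J
      · rw [ext0_neg β hx, ext0_pos β hy]
        have h1 : Int.fract x ≤ 1 / 2 := by
          by_contra hc
          exact hx ⟨not_le.1 hc, Int.fract_lt_one x⟩
        have h2 := (β ⟨_, hy⟩).2.1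
        have h3 := Int.floor_add_fract x
        rw [← h]
        linarith
      · rw [ext0_neg β hx, ext0_neg β hy]; exact hxy

private noncomputable def extJ (β : J ≃o J) : AutQ :=
  StrictMono.orderIsoOfRightInverse (ext0 β) (ext0_strictMono β) (ext0 β.symm)
    (fun y => by
      rw [ext0_ext0, OrderIso.symm_trans_self, ext0_refl])

private lemma extJ_apply (β : J ≃o J) (x : ℚ) : extJ β x = ext0 β x := rfl

private lemma extJ_inK (β : J ≃o J) : InK (extJ β) := by
  constructor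
  · intro x
    rw [extJ_apply, extJ_apply]
    by_cases h : Int.fract x ∈ J
    · have h' : Int.fract (x + 1) ∈ J := by rwa [Int.fract_add_one]
      rw [ext0_pos β h, ext0_pos β h', Int.floor_add_one]
      have : (⟨Int.fract (x + 1), h'⟩ : J) = ⟨Int.fract x, h⟩ := Subtype.ext (Int.fract_add_one x)
      rw [this]
      push_cast
      ring
    · have h' : Int.fract (x + 1) ∉ J := by rwa [Int.fract_add_one]
      rw [ext0_neg β h, ext0_neg β h']
  · intro x hx0 hx1
    rw [extJ_apply]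
    apply ext0_neg
    rw [Int.fract_eq_self.2 ⟨hx0, by linarith⟩]
    intro h
    exact absurd h.1 (not_lt.2 hx1)

private lemma exists_theta : ∃ Θ : J ≃o ℚ, Θ ⟨5 / 8, by norm_num, by norm_num⟩ = 0 ∧
    Θ ⟨7 / 8, by norm_num, by norm_num⟩ = 1 := by
  have : Nonempty J := ⟨⟨3 / 4, by norm_num, by norm_num⟩⟩
  obtain ⟨Θ⟩ := Order.iso_of_countable_dense J ℚ
  set u := Θ ⟨5 / 8, by norm_num, by norm_num⟩ with hu
  set v := Θ ⟨7 / 8, by norm_num, by norm_num⟩ with hv
  have huv : u < v := Θ.strictMono (by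
    show (5 / 8 : ℚ) < 7 / 8
    norm_num)
  have hc : 0 < 1 / (v - u) := div_pos one_pos (by linarith)
  have hne : v - u ≠ 0 := by linarith
  refine ⟨Θ.trans (aff (1 / (v - u)) (-(u / (v - u))) hc), ?_, ?_⟩
  · show 1 / (v - u) * u + -(u / (v - u)) = 0
    ring
  · show 1 / (v - u) * v + -(u / (v - u)) = 1
    field_simp
    ring

/-- elements supported in `[5/8, 7/8]` -/
private lemma gen_small (g : AutQ) (hg : Per g) (h1 : ∀ x, 0 ≤ x → x ≤ 5 / 8 → g x = x)
    (h2 : ∀ x, 7 / 8 ≤ x → x ≤ 1 → g x = x) : Gen 4 g := by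
  obtain ⟨Θ, hΘ0, hΘ1⟩ := exists_theta
  -- restriction to `J`
  have gJ : ∀ x, g x ∈ J ↔ x ∈ J := by
    intro x
    have e1 : g (1 / 2) = 1 / 2 := h1 _ (by norm_num) (by norm_num)
    have e2 : g 1 = 1 := h2 _ (by norm_num) le_rfl
    constructor
    · rintro ⟨a, b⟩
      constructor
      · rw [← g.lt_iff_lt, e1]; exact a
      · rw [← g.lt_iff_lt, e2]; exact b
    · rintro ⟨a, b⟩
      constructor
      · rw [← e1]; exact g.strictMono a
      · rw [← e2]; exact g.strictMono b
  let ρ : J ≃o J :=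
    { toFun := fun z => ⟨g z, (gJ z).2 z.2⟩
      invFun := fun z => ⟨g.symm z, (gJ _).1 (by rw [g.apply_symm_apply]; exact z.2)⟩
      left_inv := fun z => Subtype.ext (g.symm_apply_apply z)
      right_inv := fun z => Subtype.ext (g.apply_symm_apply z)
      map_rel_iff' := by
        intro a b
        exact g.le_iff_le }
  have hρ : extJ ρ = g := by
    ext x
    rw [extJ_apply]
    by_cases h : Int.fract x ∈ J
    · rw [ext0_pos ρ h, per_floor hg]
      rfl
    · rw [ext0_neg ρ h, per_floor hg, h1 _ (Int.fract_nonneg x), Int.floor_add_fract]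
      by_contra hc
      exact h ⟨by linarith, Int.fract_lt_one x⟩
  let P : AutQ → AutQ := fun φ => extJ ((Θ.trans φ).trans Θ.symm)
  have Pmul : ∀ φ ψ : AutQ, P (φ * ψ) = P φ * P ψ := by
    intro φ ψ
    ext x
    show ext0 _ x = ext0 _ (ext0 _ x)
    rw [ext0_ext0]
    congr 1
    ext z
    show ((Θ.symm (φ (ψ (Θ z))) : J) : ℚ) = ((Θ.symm (φ (Θ (Θ.symm (ψ (Θ z))))) : J) : ℚ)
    rw [Θ.apply_symm_apply]
  have Pone : P 1 = 1 := by
    ext x
    show ext0 _ x = x
    have : ((Θ.trans (1 : AutQ)).trans Θ.symm) = OrderIso.refl J := by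
      ext z
      show ((Θ.symm (Θ z) : J) : ℚ) = z
      rw [Θ.symm_apply_apply]
    rw [this, ext0_refl]
  have Pinv : ∀ φ : AutQ, P φ⁻¹ = (P φ)⁻¹ := by
    intro φ
    rw [eq_inv_iff_mul_eq_one, ← Pmul, inv_mul_cancel, Pone]
  let gh : AutQ := (Θ.symm.trans ρ).trans Θ
  have hgh : P gh = g := by
    rw [← hρ]
    show extJ ((Θ.trans ((Θ.symm.trans ρ).trans Θ)).trans Θ.symm) = extJ ρ
    congr 1
    ext z
    show ((Θ.symm (Θ (ρ (Θ.symm (Θ z)))) : J) : ℚ) = ρ z
    rw [Θ.symm_apply_apply, Θ.symm_apply_apply]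
  obtain ⟨G, hG⟩ := swindle gh
    (by
      intro x hx
      show Θ (ρ (Θ.symm x)) = x
      have h3 : Θ.symm x ≤ ⟨5 / 8, by norm_num, by norm_num⟩ := by
        rw [Θ.symm_apply_le, hΘ0]; exact hx
      have h4 : ρ (Θ.symm x) = Θ.symm x := by
        apply Subtype.ext
        show g (Θ.symm x) = Θ.symm x
        exact h1 _ (J_bd _).1 h3
      rw [h4, Θ.apply_symm_apply])
    (by
      intro x hx
      show Θ (ρ (Θ.symm x)) = x
      have h3 : ⟨7 / 8, by norm_num, by norm_num⟩ ≤ Θ.symm x := by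
        rw [Θ.le_symm_apply, hΘ1]; exact hx
      have h4 : ρ (Θ.symm x) = Θ.symm x := by
        apply Subtype.ext
        show g (Θ.symm x) = Θ.symm x
        exact h2 _ h3 (J_bd _).2.le
      rw [h4, Θ.apply_symm_apply])
  have : g = P G * P (shift 1) * (P G)⁻¹ * (P (shift 1))⁻¹ := by
    rw [← Pinv, ← Pinv, ← Pmul, ← Pmul, ← Pmul, ← hG, hgh]
  rw [this]
  exact four_roots (extJ_inK _) (extJ_inK _)

private lemma gen_of_conj {n : ℕ} {g m : AutQ} (hm : Per m) (h : Gen n (m * g * m⁻¹)) :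
    Gen n g := by
  have := h.conj (per_inv hm)
  rwa [show m⁻¹ * (m * g * m⁻¹) * m⁻¹⁻¹ = g by group] at this

/-- every element of `K` is a product of four roots -/
private lemma gen_K (g : AutQ) (hg : InK g) : Gen 4 g := by
  obtain ⟨B, hB, hB0, hBp⟩ := exists_bump 0 (1 / 2) (3 / 4) le_rfl (by norm_num) (by norm_num)
    (by norm_num) (by norm_num)
  have hB00 : B 0 = 0 := hB0 0 le_rfl le_rfl
  have hs : Per (shift (-1 / 8)) := by
    intro x
    rw [shift_apply, shift_apply]; ring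
  have hm : Per (shift (-1 / 8) * B) := per_mul hs hB
  set m := shift (-1 / 8) * B with hmdef
  have hm0 : m 0 = -1 / 8 := by
    rw [hmdef, mul_apply', hB00, shift_apply]; ring
  have hmh : m (1 / 2) = 5 / 8 := by
    rw [hmdef, mul_apply', hBp, shift_apply]; norm_num
  have hfix : ∀ x, -1 / 8 ≤ x → x ≤ 5 / 8 → (m * g * m⁻¹) x = x := by
    intro x hx0 hx1
    rw [mul_apply', mul_apply']
    have h3 : 0 ≤ m⁻¹ x := by
      rw [← m.le_iff_le, apply_inv_self', hm0]; exact hx0
    have h4 : m⁻¹ x ≤ 1 / 2 := by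
      rw [← m.le_iff_le, apply_inv_self', hmh]; exact hx1
    rw [hg.2 _ h3 h4, apply_inv_self']
  have hP : Per (m * g * m⁻¹) := per_mul (per_mul hm hg.1) (per_inv hm)
  refine gen_of_conj hm (gen_small _ hP (fun x h0 h1 => hfix x (by linarith) h1) ?_)
  intro x h0 h1
  have := hP (x - 1)
  rw [hfix (x - 1) (by linarith) (by linarith), sub_add_cancel] at this
  rw [this]

/-- MODULE BG. Bounded generation by roots. -/
theorem bounded_gen (h : AutQ) (hh : Per h) (h0 : 0 < h 0) (h1 : h 0 < 1) :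
    ∃ l : List AutQ, l.length ≤ 13 ∧
      (∀ x ∈ l, Per x ∧ (Root x ∨ Root x⁻¹)) ∧ l.prod = h := by
  show Gen 13 h
  -- the first root
  obtain ⟨L, hL, hL0, hLp⟩ := exists_bump 0 (1 / 2) (h 0) le_rfl (by norm_num) (by norm_num) h0 h1
  have hL00 : L 0 = 0 := hL0 0 le_rfl le_rfl
  set a := L * rr * L⁻¹ with hadef
  have ha : Root a := root_conj rr_root hL
  have haP : Per a := root_per ha
  have hLi0 : L⁻¹ 0 = 0 := by
    have := inv_apply_self' L 0
    rwa [hL00] at this
  have ha0 : a 0 = h 0 := by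
    rw [hadef, mul_apply', mul_apply', hLi0, rr_apply, zero_add, hLp]
  set k := a⁻¹ * h with hk
  have hkP : Per k := per_mul (per_inv haP) hh
  have hk0 : k 0 = 0 := by
    rw [hk, mul_apply', ← ha0, inv_apply_self']
  have hk1 : k 1 = 1 := by
    have := hkP 0
    rw [zero_add, hk0] at this
    rw [this]; ring
  set p := k (1 / 2) with hp
  have hp0 : 0 < p := by rw [hp, ← hk0]; exact k.strictMono (by norm_num)
  have hp1 : p < 1 := by
    calc p < k 1 := k.strictMono (by norm_num)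
      _ = 1 := hk1
  -- correction at one half
  obtain ⟨δ, hδ0, hδp, hδh⟩ : ∃ δ : ℚ, 0 < δ ∧ δ < p ∧ δ < 1 / 2 := by
    refine ⟨min p (1 / 2) / 2, ?_, ?_, ?_⟩
    · have : 0 < min p (1 / 2) := lt_min hp0 (by norm_num)
      linarith
    · have := min_le_left p (1 / 2)
      have : 0 < min p (1 / 2) := lt_min hp0 (by norm_num)
      linarith
    · have := min_le_right p (1 / 2)
      linarith
  obtain ⟨v, hv, hv0, hvp⟩ := exists_bump δ p (1 / 2) hδ0.le hδp hp1 hδh (by norm_num)
  set w := v * k with hw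
  have hwP : Per w := per_mul hv hkP
  have hw0 : w 0 = 0 := by rw [hw, mul_apply', hk0, hv0 0 le_rfl hδ0.le]
  have hwh : w (1 / 2) = 1 / 2 := by rw [hw, mul_apply', ← hp, hvp]
  have hw1 : w 1 = 1 := by
    have := hwP 0
    rw [zero_add, hw0] at this
    rw [this]; ring
  -- the right half
  have hgl : (1 : AutQ) (1 / 2) = w (1 / 2) := hwh.symm
  set c0 := glue 1 w (1 / 2) hgl with hc0
  have hc00 : c0 0 = 0 := glue_left _ _ _ _ (by norm_num)
  have hc01 : c0 1 = 1 := by
    rw [show c0 1 = w 1 from glue_right _ _ _ _ (by norm_num), hw1]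
  set c2 := pext c0 hc00 hc01 with hc2
  have hc2P : Per c2 := pext_per _ _ _
  have hc2K : InK c2 := by
    refine ⟨hc2P, fun x hx0 hx1 => ?_⟩
    rw [hc2, pext_unit _ _ _ hx0 (by linarith)]
    rcases hx1.lt_or_eq with hx | hx
    · exact glue_left _ _ _ _ hx
    · rw [hx, show c0 (1 / 2) = w (1 / 2) from glue_right _ _ _ _ le_rfl, hwh]
  have hc2w : ∀ x, 1 / 2 ≤ x → x ≤ 1 → c2 x = w x := by
    intro x hx0 hx1
    rcases hx1.lt_or_eq with hx | hx
    · rw [hc2, pext_unit _ _ _ (by linarith) hx]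
      exact glue_right _ _ _ _ hx0
    · have := hc2P 0
      rw [zero_add, hc2K.2 0 le_rfl (by norm_num)] at this
      rw [hx, this, hw1]; ring
  set c1 := w * c2⁻¹ with hc1
  have hc1P : Per c1 := per_mul hwP (per_inv hc2P)
  have hc1f : ∀ x, 1 / 2 ≤ x → x ≤ 1 → c1 x = x := by
    intro x hx0 hx1
    rw [hc1, mul_apply']
    have e1 : 1 / 2 ≤ c2⁻¹ x := by
      rw [← c2.le_iff_le, apply_inv_self', hc2K.2 _ (by norm_num) le_rfl]; exact hx0
    have e2 : c2⁻¹ x ≤ 1 := by
      rw [← c2.le_iff_le, apply_inv_self', hc2w 1 (by norm_num) le_rfl, hw1]; exact hx1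
    rw [← hc2w _ e1 e2, apply_inv_self']
  -- the three pieces
  have g2 : Gen 4 c2 := gen_K _ hc2K
  have g1 : Gen 4 c1 := by
    have hr : Per rr := root_per rr_root
    refine gen_of_conj hr (gen_K _ ⟨per_mul (per_mul hr hc1P) (per_inv hr), ?_⟩)
    intro x hx0 hx1
    rw [mul_apply', mul_apply', rr_inv_apply]
    have e1 := hc1P (x - 1 / 2)
    rw [show x - 1 / 2 + 1 = x + 1 / 2 by ring, hc1f (x + 1 / 2) (by linarith) (by linarith)] at e1
    rw [rr_apply]
    linarith
  have g0 : Gen 4 v⁻¹ := by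
    obtain ⟨u, hu, hu0, hup⟩ := exists_bump 0 δ (1 / 2) le_rfl hδ0 (by linarith) (by norm_num)
      (by norm_num)
    have hu00 : u 0 = 0 := hu0 0 le_rfl le_rfl
    refine gen_of_conj hu (gen_K _ ⟨per_mul (per_mul hu (per_inv hv)) (per_inv hu), ?_⟩)
    intro x hx0 hx1
    rw [mul_apply', mul_apply']
    have e1 : 0 ≤ u⁻¹ x := by
      rw [← u.le_iff_le, apply_inv_self', hu00]; exact hx0
    have e2 : u⁻¹ x ≤ δ := by
      rw [← u.le_iff_le, apply_inv_self', hup]; exact hx1
    have e3 : v⁻¹ (u⁻¹ x) = u⁻¹ x := by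
      have := inv_apply_self' v (u⁻¹ x)
      rwa [hv0 _ e1 e2] at this
    rw [e3, apply_inv_self']
  have hfin : h = a * (v⁻¹ * (c1 * c2)) := by
    rw [hc1, inv_mul_cancel_right, hw, inv_mul_cancel_left, hk, mul_inv_cancel_left]
  rw [hfin]
  exact Gen.mul (m := 1) (n := 12) (gen_root ha)
    (Gen.mul (m := 4) (n := 8) g0 (Gen.mul (m := 4) (n := 4) g1 g2))

end PoolLOMin
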